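import Pool.Agent.Lib.MP_ff4a33_gt.Defs

set_option autoImplicit false

/-!
General lemmas on simplicial refinements.
-/

namespace Pool.Agent.Lib.MP_ff4a33_gt

open Set

section Lemmas

variable {E : Type*} [AddCommGroup E] [Module ℝ E]
variable {F : Type*} [AddCommGroup F] [Module ℝ F]

open Classical in
/-- extension of a function on a subtype by zero -/
noncomputable def ext0 {C : Set E} (ω : C → ℝ) (x : E) : ℝ := if h : x ∈ C then ω ⟨x, h⟩ else 0

omit [AddCommGroup E] [Module ℝ E] in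
lemma ext0_of_mem {C : Set E} (ω : C → ℝ) {x : E} (h : x ∈ C) : ext0 ω x = ω ⟨x, h⟩ := by
  simp [ext0, h]

lemma FormSpace.convexOn {C : Set E} (hC : Convex ℝ C) {ω : C → ℝ} (h : ω ∈ FormSpace C) :
    ConvexOn ℝ C (ext0 ω) ∧ ConcaveOn ℝ C (ext0 ω) := by
  have key : ∀ x ∈ C, ∀ y ∈ C, ∀ a b : ℝ, 0 ≤ a → 0 ≤ b → a + b = 1 →
      ext0 ω (a • x + b • y) = a • ext0 ω x + b • ext0 ω y := by
    intro x hx y hy a b ha hb hab
    have hm : a • x + b • y ∈ C := hC hx hy ha hb hab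
    have hb' : b = 1 - a := by linarith
    rw [ext0_of_mem ω hx, ext0_of_mem ω hy, ext0_of_mem ω hm]
    subst hb'
    simpa using h.2 ⟨x, hx⟩ ⟨y, hy⟩ ⟨_, hm⟩ a ha (by linarith) rfl
  exact ⟨⟨hC, fun x hx y hy a b ha hb hab => (key x hx y hy a b ha hb hab).le⟩,
    ⟨hC, fun x hx y hy a b ha hb hab => (key x hx y hy a b ha hb hab).ge⟩⟩

lemma FormSpace.map_sum {C : Set E} (hC : Convex ℝ C) {ω : C → ℝ} (h : ω ∈ FormSpace C)
    {ι : Type*} (t : Finset ι) (w : ι → ℝ) (x : ι → E) (hw : ∀ i ∈ t, 0 ≤ w i)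
    (hw1 : ∑ i ∈ t, w i = 1) (hx : ∀ i ∈ t, x i ∈ C) :
    ext0 ω (∑ i ∈ t, w i • x i) = ∑ i ∈ t, w i * ext0 ω (x i) := by
  obtain ⟨h1, h2⟩ := FormSpace.convexOn hC h
  apply le_antisymm
  · simpa using h1.map_sum_le hw hw1 hx
  · simpa using h2.le_map_sum hw hw1 hx

/-- an affine function on the ambient space which maps `C` to `[0,1]` restricts to a form -/
lemma mem_formSpace_of_affine {C : Set E} (φ : E →ₗ[ℝ] ℝ) (c : ℝ)
    (h : ∀ x ∈ C, 0 ≤ φ x + c ∧ φ x + c ≤ 1) : (fun x : C => φ x + c) ∈ FormSpace C := by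
  refine ⟨fun a => h a a.2, ?_⟩
  intro a b d t _ _ hd
  simp only [hd, map_add, map_smul, smul_eq_mul]
  ring

/-- Every point of a refinement gives a probability vector and every form a response function;
affine independence is not used here. -/
lemma HasRefinementOfDim.extract {C : Set E} {d : ℕ} (h : HasRefinementOfDim C d) :
    ∃ (μ : E → Fin (d + 1) → ℝ) (r : (C → ℝ) → Fin (d + 1) → ℝ),
      (∀ v ∈ C, ∀ l, 0 ≤ μ v l) ∧ (∀ v ∈ C, ∑ l, μ v l = 1) ∧
      (∀ e ∈ FormSpace C, ∀ l, 0 ≤ r e l ∧ r e l ≤ 1) ∧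
      (∀ v (hv : v ∈ C), ∀ e ∈ FormSpace C, ∑ l, μ v l * r e l = e ⟨v, hv⟩) := by
  obtain ⟨F, _, _, _, T, Df, f, Dg, g, ⟨p, hp, hT⟩, href⟩ := h
  have hTc : Convex ℝ T := by rw [hT]; exact convex_convexHull ℝ _
  have hpT : ∀ l, p l ∈ T := fun l => by rw [hT]; exact subset_convexHull ℝ _ (mem_range_self l)
  -- a preimage and its weights
  have h1 : ∀ v : E, ∃ (a : F) (m : Fin (d + 1) → ℝ), v ∈ C →
      a ∈ Df ∧ f a = v ∧ (∀ l, 0 ≤ m l) ∧ ∑ l, m l = 1 ∧ ∑ l, m l • p l = a := by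
    intro v
    by_cases hv : v ∈ C
    · have : v ∈ f '' Df := by rw [href.f_map.onto]; exact hv
      obtain ⟨a, ha, hfa⟩ := this
      have haT : a ∈ convexHull ℝ (range p) := by rw [← hT]; exact href.f_map.subset ha
      rw [convexHull_range_eq_exists_affineCombination] at haT
      obtain ⟨s, w, hw0, hw1, hwa⟩ := haT
      refine ⟨a, fun l => if l ∈ s then w l else 0, fun _ => ⟨ha, hfa, ?_, ?_, ?_⟩⟩
      · intro l
        by_cases hl : l ∈ s
        · simp [hl, hw0 l hl]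
        · simp [hl]
      · rw [Finset.sum_ite_mem, Finset.univ_inter]; exact hw1
      · rw [← hwa, s.affineCombination_eq_linear_combination _ _ hw1]
        simp [ite_smul]
    · exact ⟨0, 0, fun h => absurd h hv⟩
  choose a m ham using h1
  have h2 : ∀ e : C → ℝ, ∃ ω : T → ℝ, e ∈ FormSpace C → ω ∈ Dg ∧ g ω = e := by
    intro e
    by_cases he : e ∈ FormSpace C
    · have : e ∈ g '' Dg := by rw [href.g_map.onto]; exact he
      obtain ⟨ω, hω, hge⟩ := this
      exact ⟨ω, fun _ => ⟨hω, hge⟩⟩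
    · exact ⟨0, fun h => absurd h he⟩
  choose ω hω using h2
  refine ⟨m, fun e l => ω e ⟨p l, hpT l⟩, fun v hv l => (ham v hv).2.2.1 l,
    fun v hv => (ham v hv).2.2.2.1, ?_, ?_⟩
  · intro e he l
    exact (href.g_map.subset (hω e he).1).1 _
  · intro v hv e he
    obtain ⟨haD, hfa, hm0, hm1, hma⟩ := ham v hv
    obtain ⟨hωD, hge⟩ := hω e he
    have haT : a v ∈ T := href.f_map.subset haD
    have hc := href.compat ⟨a v, haT⟩ ⟨v, hv⟩ haD hfa (ω e) hωD
    rw [hge] at hc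
    rw [hc]
    have hsum := FormSpace.map_sum hTc (href.g_map.subset hωD) Finset.univ (m v) p
      (fun l _ => hm0 l) hm1 (fun l _ => hpT l)
    rw [hma, ext0_of_mem _ haT] at hsum
    rw [hsum]
    refine Finset.sum_congr rfl fun l _ => ?_
    rw [ext0_of_mem _ (hpT l)]

/-- Criterion for the existence of a refinement: it is enough to give `f` on a convex part of the
simplex and to lift every form. -/
lemma hasRefinementOfDim_of {C : Set E} {d : ℕ} {F : Type} [AddCommGroup F] [Module ℝ F]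
    [FiniteDimensional ℝ F] {T : Set F} (hT : IsSimplexOfDim T d) (Df : Set F) (f : F → E)
    (hf : IsPartialOntoAffine T C Df f)
    (hg : ∀ e ∈ FormSpace C, ∃ ω ∈ FormSpace T, ∀ (a : T) (c : C), (a : F) ∈ Df → f a = c →
      e c = ω a) : HasRefinementOfDim C d := by
  classical
  -- choose a section of f
  have hsec : ∀ c : C, ∃ a : T, (a : F) ∈ Df ∧ f a = c := by
    intro c
    have : (c : E) ∈ f '' Df := by rw [hf.onto]; exact c.2
    obtain ⟨a, ha, hfa⟩ := this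
    exact ⟨⟨a, hf.subset ha⟩, ha, hfa⟩
  choose σ hσD hσf using hsec
  let g : (T → ℝ) → (C → ℝ) := fun ω c => ω (σ c)
  let Dg : Set (T → ℝ) := {ω | ω ∈ FormSpace T ∧ ∃ e ∈ FormSpace C,
    ∀ (a : T) (c : C), (a : F) ∈ Df → f a = c → e c = ω a}
  have hge : ∀ ω : T → ℝ, ∀ e : C → ℝ,
      (∀ (a : T) (c : C), (a : F) ∈ Df → f a = c → e c = ω a) → g ω = e := by
    intro ω e h
    funext c
    exact (h (σ c) c (hσD c) (hσf c)).symm
  refine ⟨F, inferInstance, inferInstance, inferInstance, T, Df, f, Dg, g, hT,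
    ⟨⟨d, hT⟩, hf, ⟨fun ω hω => hω.1, ?_, ?_, ?_⟩, ?_⟩⟩
  · rintro ω₁ ⟨h1, e₁, he₁, hc₁⟩ ω₂ ⟨h2, e₂, he₂, hc₂⟩ t ⟨ht0, ht1⟩
    have hconv : ∀ {X : Type _} [AddCommGroup X] [Module ℝ X] (S : Set X) (a b : S → ℝ),
        a ∈ FormSpace S → b ∈ FormSpace S → t • a + (1 - t) • b ∈ FormSpace S := by
      intro X _ _ S a b ha hb
      refine ⟨fun x => ?_, ?_⟩
      · have := ha.1 x
        have := hb.1 x
        simp only [Pi.add_apply, Pi.smul_apply, smul_eq_mul]
        constructor <;> nlinarith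
      · intro x y z s hs0 hs1 hz
        simp only [Pi.add_apply, Pi.smul_apply, smul_eq_mul]
        rw [ha.2 x y z s hs0 hs1 hz, hb.2 x y z s hs0 hs1 hz]
        ring
    refine ⟨hconv _ _ _ h1 h2, t • e₁ + (1 - t) • e₂, ?_, ?_⟩
    · refine ⟨fun x => ?_, ?_⟩
      · have := he₁.1 x
        have := he₂.1 x
        simp only [Pi.add_apply, Pi.smul_apply, smul_eq_mul]
        constructor <;> nlinarith
      · intro x y z s hs0 hs1 hz
        simp only [Pi.add_apply, Pi.smul_apply, smul_eq_mul]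
        rw [he₁.2 x y z s hs0 hs1 hz, he₂.2 x y z s hs0 hs1 hz]
        ring
    · intro a c ha hc
      simp only [Pi.add_apply, Pi.smul_apply, smul_eq_mul]
      rw [hc₁ a c ha hc, hc₂ a c ha hc]
  · intro ω₁ _ ω₂ _ t _
    funext c
    simp [g]
  · apply Set.Subset.antisymm
    · rintro _ ⟨ω, ⟨_, e, he, hc⟩, rfl⟩
      rw [hge ω e hc]; exact he
    · intro e he
      obtain ⟨ω, hω, hc⟩ := hg e he
      exact ⟨ω, ⟨hω, e, he, hc⟩, hge ω e hc⟩
  · rintro a c ha hc ω ⟨_, e, he, hce⟩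
    rw [hge ω e hce]
    exact hce a c ha hc

end Lemmas

end Pool.Agent.Lib.MP_ff4a33_gt
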