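import Mathlib

set_option autoImplicit false

/-!
Definitions for the problem on simplicial refinements of statistical models.
-/

namespace Pool.Agent.Lib.MP_ff4a33_gt

open Set

section Defs

variable {E : Type*} [AddCommGroup E] [Module ℝ E]
variable {F : Type*} [AddCommGroup F] [Module ℝ F]

/-- The convex-form space `ΩC`: all affine functions `C → [0,1]`. It is a subset of the real
vector space `C → ℝ`, whose operations are pointwise. -/
def FormSpace (C : Set E) : Set (C → ℝ) :=
  {ω | (∀ a : C, 0 ≤ ω a ∧ ω a ≤ 1) ∧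
    ∀ (a b c : C) (t : ℝ), 0 ≤ t → t ≤ 1 →
      (c : E) = t • (a : E) + (1 - t) • (b : E) → ω c = t * ω a + (1 - t) * ω b}

/-- The function `h`, restricted to the domain `D ⊆ X`, is a partial, onto, affine map from
`X` to `Y`. -/
structure IsPartialOntoAffine (X : Set E) (Y : Set F) (D : Set E) (h : E → F) : Prop where
  subset : D ⊆ X
  defined : ∀ a ∈ D, ∀ b ∈ D, ∀ t ∈ Icc (0 : ℝ) 1, t • a + (1 - t) • b ∈ D
  affine : ∀ a ∈ D, ∀ b ∈ D, ∀ t ∈ Icc (0 : ℝ) 1,
    h (t • a + (1 - t) • b) = t • h a + (1 - t) • h b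
  onto : h '' D = Y

/-- `T` is a simplex of dimension `d`: the convex hull of `d + 1` affinely independent
points. -/
def IsSimplexOfDim (T : Set F) (d : ℕ) : Prop :=
  ∃ p : Fin (d + 1) → F, AffineIndependent ℝ p ∧ T = convexHull ℝ (range p)

/-- The quadruple `(T, ΩT, f, g)` is a simplicial refinement of `(C, ΩC)`, where `f` has domain
`Df` and `g` has domain `Dg`. -/
structure IsSimplicialRefinement (C : Set E) (T : Set F) (Df : Set F) (f : F → E)
    (Dg : Set (T → ℝ)) (g : (T → ℝ) → (C → ℝ)) : Prop where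
  simplex : ∃ d : ℕ, IsSimplexOfDim T d
  f_map : IsPartialOntoAffine T C Df f
  g_map : IsPartialOntoAffine (FormSpace T) (FormSpace C) Dg g
  compat : ∀ (a : T) (c : C), (a : F) ∈ Df → f a = c → ∀ ω ∈ Dg, g ω c = ω a

/-- The statistical model `(C, ΩC)` has a simplicial refinement `(T, ΩT, f, g)` with
`dim T = d`. -/
def HasRefinementOfDim (C : Set E) (d : ℕ) : Prop :=
  ∃ (F : Type) (_ : AddCommGroup F) (_ : Module ℝ F) (_ : FiniteDimensional ℝ F)
    (T : Set F) (Df : Set F) (f : F → E) (Dg : Set (T → ℝ)) (g : (T → ℝ) → (C → ℝ)),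
    IsSimplexOfDim T d ∧ IsSimplicialRefinement C T Df f Dg g

end Defs

end Pool.Agent.Lib.MP_ff4a33_gt
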