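import Mathlib

set_option autoImplicit false

namespace Pool.Agent.Lib.MP_ff4a33_gt

/-- The root polytope of type `A_{n-1}`: the convex hull of the vectors `e_i - e_j` with
`i ≠ j` in `ℝ^n`. For `n = 4` it is the cuboctahedron. -/
def rootPolytope (n : ℕ) : Set (Fin n → ℝ) :=
  convexHull ℝ {x | ∃ i j : Fin n, i ≠ j ∧ x = Pi.single i 1 - Pi.single j 1}

end Pool.Agent.Lib.MP_ff4a33_gt
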