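import Pool.Agent.Lib.MP_ff4a33_gt.Basic
import Pool.Agent.Lib.MP_ff4a33_gt.RootDefs

set_option autoImplicit false

namespace Pool.Agent.Lib.MP_ff4a33_gt.Root

open Set

variable {n : ℕ}

/-- the vertex `e_i - e_j` -/
def vtx (i j : Fin n) : Fin n → ℝ := Pi.single i 1 - Pi.single j 1

lemma vtx_mem {i j : Fin n} (h : i ≠ j) : vtx i j ∈ rootPolytope n :=
  subset_convexHull ℝ _ ⟨i, j, h, rfl⟩

lemma convex_root : Convex ℝ (rootPolytope n) := convex_convexHull ℝ _

lemma vtx_mem' (hn : 2 ≤ n) (i j : Fin n) : vtx i j ∈ rootPolytope n := by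
  by_cases h : i = j
  · subst h
    obtain ⟨k, hk⟩ : ∃ k : Fin n, k ≠ i := by
      have : Nontrivial (Fin n) := Fin.nontrivial_iff_two_le.mpr hn
      exact exists_ne i
    have h1 := vtx_mem (n := n) hk
    have h2 := vtx_mem (n := n) hk.symm
    have := convex_root h1 h2 (show (0 : ℝ) ≤ 1 / 2 by norm_num)
      (show (0 : ℝ) ≤ 1 / 2 by norm_num) (by norm_num)
    have e : (1 / 2 : ℝ) • vtx k i + (1 / 2 : ℝ) • vtx i k = vtx i i := by
      unfold vtx
      rw [← smul_add]
      simp
    rwa [e] at this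
  · exact vtx_mem h

lemma vtx_inj {i j i' j' : Fin n} (h : i ≠ j) (he : vtx i j = vtx i' j') :
    i = i' ∧ j = j' := by
  have h1 := congrFun he i
  have h2 := congrFun he j
  simp only [vtx, Pi.sub_apply, Pi.single_apply] at h1 h2
  constructor
  · by_contra hi
    simp only [if_true, if_neg h, if_neg hi] at h1
    split_ifs at h1 <;> norm_num at h1
  · by_contra hj
    simp only [if_true, if_neg hj, if_neg h.symm] at h2
    split_ifs at h2 <;> norm_num at h2

/-- functional separating the vertex `e_i - e_j` -/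
lemma extreme_vtx {i j : Fin n} (h : i ≠ j) : vtx i j ∈ (rootPolytope n).extremePoints ℝ := by
  let φ : (Fin n → ℝ) →ₗ[ℝ] ℝ :=
    (LinearMap.proj i : (Fin n → ℝ) →ₗ[ℝ] ℝ) - (LinearMap.proj j : (Fin n → ℝ) →ₗ[ℝ] ℝ)
  have hφ : ∀ x : Fin n → ℝ, φ x = x i - x j := fun x => rfl
  have hv : φ (vtx i j) = 2 := by
    rw [hφ]; simp [vtx, h, h.symm]; norm_num
  have hset : rootPolytope n ⊆ {x | φ x < 2} ∪ {vtx i j} := by
    apply convexHull_min
    · rintro x ⟨i', j', h', rfl⟩
      by_cases hi : i' = i ∧ j' = j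
      · right
        rw [hi.1, hi.2]
        rfl
      · left
        show φ _ < 2
        rw [hφ]
        simp only [Pi.sub_apply, Pi.single_apply]
        have : ¬ (i' = i ∧ j' = j) := hi
        by_cases h1 : i = i' <;> by_cases h2 : i = j' <;> by_cases h3 : j = i' <;>
          by_cases h4 : j = j' <;> simp only [h1, h2, h3, h4, if_true, if_false] <;>
          simp_all <;> norm_num
    · intro x hx y hy a b ha hb hab
      have hle : ∀ z ∈ {x | φ x < 2} ∪ {vtx i j}, φ z ≤ 2 := by
        rintro z (hz | hz)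
        · exact le_of_lt hz
        · rw [hz, hv]
      rcases eq_or_lt_of_le ha with ha0 | ha0
      · have : b = 1 := by linarith
        rw [← ha0, this]; simpa using hy
      rcases eq_or_lt_of_le hb with hb0 | hb0
      · have : a = 1 := by linarith
        rw [← hb0, this]; simpa using hx
      by_cases hxl : φ x < 2
      · left
        show φ _ < 2
        rw [map_add, map_smul, map_smul, smul_eq_mul, smul_eq_mul]
        nlinarith [hle y hy]
      by_cases hyl : φ y < 2
      · left
        show φ _ < 2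
        rw [map_add, map_smul, map_smul, smul_eq_mul, smul_eq_mul]
        nlinarith [hle x hx]
      · have hx' : x = vtx i j := by
          rcases hx with hx | hx
          · exact absurd hx hxl
          · exact hx
        have hy' : y = vtx i j := by
          rcases hy with hy | hy
          · exact absurd hy hyl
          · exact hy
        right
        rw [hx', hy', ← add_smul, hab, one_smul]
        rfl
  refine ⟨vtx_mem h, ?_⟩
  intro x hx y hy hxy
  obtain ⟨a, b, ha, hb, hab, he⟩ := hxy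
  have h1 : φ x ≤ 2 := by
    rcases hset hx with h | h
    · exact le_of_lt h
    · rw [h, hv]
  have h2 : φ y ≤ 2 := by
    rcases hset hy with h | h
    · exact le_of_lt h
    · rw [h, hv]
  have h3 : a * φ x + b * φ y = 2 := by
    rw [← hv, ← he, map_add, map_smul, map_smul, smul_eq_mul, smul_eq_mul]
  rcases hset hx with h | h
  · exfalso
    have : φ x < 2 := h
    nlinarith
  · exact h

/-- the vertices, as a finite set -/
noncomputable def vtxSet (n : ℕ) : Finset (Fin n → ℝ) :=
  ((Finset.univ : Finset (Fin n × Fin n)).filter fun q => q.1 ≠ q.2).image fun q => vtx q.1 q.2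

lemma coe_vtxSet : (vtxSet n : Set (Fin n → ℝ)) =
    {x | ∃ i j : Fin n, i ≠ j ∧ x = Pi.single i 1 - Pi.single j 1} := by
  ext x
  simp only [vtxSet, Finset.coe_image, Finset.coe_filter, Finset.mem_univ, true_and,
    Set.mem_image, Set.mem_ofPred_eq, Prod.exists]
  constructor
  · rintro ⟨i, j, h, rfl⟩; exact ⟨i, j, h, rfl⟩
  · rintro ⟨i, j, h, rfl⟩; exact ⟨i, j, h, rfl⟩

lemma extremePoints_eq : (rootPolytope n).extremePoints ℝ = (vtxSet n : Set (Fin n → ℝ)) := by
  rw [coe_vtxSet]
  apply Set.Subset.antisymm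
  · exact extremePoints_convexHull_subset
  · rintro x ⟨i, j, h, rfl⟩
    exact extreme_vtx h

lemma card_vtxSet : (vtxSet n).card = n * (n - 1) := by
  unfold vtxSet
  rw [Finset.card_image_of_injOn]
  · have h : ((Finset.univ : Finset (Fin n × Fin n)).filter fun q => q.1 ≠ q.2) =
        (Finset.univ : Finset (Fin n)).offDiag := by
      ext q
      simp [Finset.mem_offDiag]
    rw [h, Finset.offDiag_card]
    simp [Nat.mul_sub]
  · rintro ⟨i, j⟩ h ⟨i', j'⟩ _ he
    have := vtx_inj (by simpa using h) he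
    exact Prod.ext this.1 this.2

lemma ncard_extremePoints : ((rootPolytope n).extremePoints ℝ).ncard = n * (n - 1) := by
  rw [extremePoints_eq, Set.ncard_coe_finset, card_vtxSet]

lemma not_simplex (hn : 3 ≤ n) : ¬ ∃ d, IsSimplexOfDim (rootPolytope n) d := by
  rintro ⟨d, p, hp, hT⟩
  have h1 : ((rootPolytope n).extremePoints ℝ).ncard ≤ d + 1 := by
    rw [hT]
    calc ((convexHull ℝ (range p)).extremePoints ℝ).ncard ≤ (range p).ncard :=
          Set.ncard_le_ncard extremePoints_convexHull_subset (Set.finite_range p)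
      _ ≤ d + 1 := by
          rw [← Set.image_univ]
          refine (Set.ncard_image_le Set.finite_univ).trans ?_
          rw [Set.ncard_univ]; simp
  have h2 : d + 1 ≤ n + 1 := by
    have := hp.card_le_finrank_succ
    simp only [Fintype.card_fin] at this
    refine this.trans ?_
    have := Submodule.finrank_le (vectorSpan ℝ (range p))
    simp only [Module.finrank_fintype_fun_eq_card, Fintype.card_fin] at this
    omega
  rw [ncard_extremePoints] at h1
  have h3 : n * (n - 1) ≤ n + 1 := h1.trans h2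
  obtain ⟨m, rfl⟩ : ∃ m, n = m + 3 := ⟨n - 3, by omega⟩
  have : (m + 3) * (m + 3 - 1) = (m + 3) * (m + 2) := by congr 1
  rw [this] at h3
  nlinarith

/-! ### Lower bound -/

/-- the form `x ↦ (1 + ∑_{i ∈ J} x_i) / 2` -/
noncomputable def form (J : Finset (Fin n)) : rootPolytope n → ℝ :=
  fun x => (1 / 2) * (∑ i ∈ J, (x : Fin n → ℝ) i) + 1 / 2

lemma sum_vtx (J : Finset (Fin n)) (i j : Fin n) :
    ∑ l ∈ J, vtx i j l = (if i ∈ J then 1 else 0) - (if j ∈ J then 1 else 0) := by
  simp [vtx, Finset.sum_sub_distrib]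

lemma form_mem (J : Finset (Fin n)) : form J ∈ FormSpace (rootPolytope n) := by
  let φ : (Fin n → ℝ) →ₗ[ℝ] ℝ :=
    (1 / 2 : ℝ) • ∑ i ∈ J, (LinearMap.proj i : (Fin n → ℝ) →ₗ[ℝ] ℝ)
  have hφ : ∀ x, φ x = (1 / 2) * (∑ i ∈ J, x i) := by
    intro x; simp [φ]
  have hform : form J = fun x : rootPolytope n => φ x + 1 / 2 := by
    funext x; rw [hφ]; rfl
  rw [hform]
  apply mem_formSpace_of_affine
  have hsub : rootPolytope n ⊆ {x | φ x ∈ Icc (-(1 / 2) : ℝ) (1 / 2)} := by
    apply convexHull_min
    · rintro x ⟨i, j, _, rfl⟩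
      show φ (vtx i j) ∈ Icc (-(1 / 2) : ℝ) (1 / 2)
      rw [hφ, sum_vtx]
      split_ifs <;> norm_num
    · exact (convex_Icc _ _).linear_preimage φ
  intro x hx
  have := hsub hx
  simp only [Set.mem_ofPred_eq, Set.mem_Icc] at this
  constructor <;> linarith [this.1, this.2]

lemma form_vtx (J : Finset (Fin n)) {i j : Fin n} (h : i ≠ j) :
    form J ⟨vtx i j, vtx_mem h⟩ =
      (1 / 2) * ((if i ∈ J then 1 else 0) - (if j ∈ J then 1 else 0)) + 1 / 2 := by
  simp only [form, sum_vtx]

section Count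

variable {k : ℕ} (μ : Fin n → Fin n → Fin k → ℝ) (r : Finset (Fin n) → Fin k → ℝ)

/-- The combinatorial core of the lower bound. -/
lemma count (hn : 3 ≤ n)
    (hμ0 : ∀ i j l, i ≠ j → 0 ≤ μ i j l) (hμ1 : ∀ i j, i ≠ j → ∑ l, μ i j l = 1)
    (hr : ∀ J l, 0 ≤ r J l ∧ r J l ≤ 1)
    (hval : ∀ J i j, i ≠ j → ∑ l, μ i j l * r J l =
      (1 / 2) * ((if i ∈ J then 1 else 0) - (if j ∈ J then 1 else 0)) + 1 / 2) :
    2 * n ≤ k := by
  classical
  -- support facts
  have F1 : ∀ J i j l, i ≠ j → i ∈ J → j ∉ J → 0 < μ i j l → r J l = 1 := by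
    intro J i j l hij hi hj hl
    have hv := hval J i j hij
    rw [if_pos hi, if_neg hj] at hv
    by_contra hne
    have hlt : r J l < 1 := lt_of_le_of_ne (hr J l).2 hne
    have : ∑ l, μ i j l * r J l < ∑ l, μ i j l := by
      apply Finset.sum_lt_sum
      · intro l' _
        nlinarith [hμ0 i j l' hij, (hr J l').2]
      · exact ⟨l, Finset.mem_univ _, by nlinarith⟩
    rw [hv, hμ1 i j hij] at this
    norm_num at this
  have F0 : ∀ J i j l, i ≠ j → i ∉ J → j ∈ J → 0 < μ i j l → r J l = 0 := by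
    intro J i j l hij hi hj hl
    have hv := hval J i j hij
    rw [if_neg hi, if_pos hj] at hv
    have h0 : ∑ l, μ i j l * r J l = 0 := by rw [hv]; norm_num
    rw [Finset.sum_eq_zero_iff_of_nonneg
      (fun l' _ => mul_nonneg (hμ0 i j l' hij) (hr J l').1)] at h0
    have := h0 l (Finset.mem_univ _)
    rcases mul_eq_zero.mp this with h | h
    · exact absurd h hl.ne'
    · exact h
  -- two vertices sharing a state share a coordinate
  have A : ∀ l i j i' j', i ≠ j → i' ≠ j' → 0 < μ i j l → 0 < μ i' j' l → i = i' ∨ j = j' := by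
    intro l i j i' j' hij hij' hl hl'
    by_contra hcon
    push Not at hcon
    have h1 := F1 {i, j'} i j l hij (by simp) (by simp [hij.symm, hcon.2]) hl
    have h0 := F0 {i, j'} i' j' l hij' (by simp [hcon.1.symm, hij']) (by simp) hl'
    rw [h1] at h0
    norm_num at h0
  -- every vertex has a state all of whose vertices lie in its row
  have half : ∀ J i j, i ≠ j → (i ∈ J ↔ j ∈ J) → ∃ l, 0 < μ i j l ∧ r J l ≠ 1 := by
    intro J i j hij hiff
    by_contra hcon
    push Not at hcon
    have hv := hval J i j hij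
    have h1 : ∑ l, μ i j l * r J l = ∑ l, μ i j l := by
      refine Finset.sum_congr rfl fun l _ => ?_
      rcases eq_or_lt_of_le (hμ0 i j l hij) with h | h
      · rw [← h]; simp
      · rw [hcon l h, mul_one]
    rw [h1, hμ1 i j hij] at hv
    by_cases hi : i ∈ J
    · rw [if_pos hi, if_pos (hiff.mp hi)] at hv
      norm_num at hv
    · rw [if_neg hi, if_neg (fun h => hi (hiff.mpr h))] at hv
      norm_num at hv
  have Ccol : ∀ i j, i ≠ j → ∃ l, 0 < μ i j l ∧ ∀ i' j', i' ≠ j' → 0 < μ i' j' l → j' = j := by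
    intro i j hij
    obtain ⟨l, hl, hr1⟩ := half {i, j} i j hij (by simp)
    refine ⟨l, hl, ?_⟩
    intro i' j' hij' hl'
    by_contra hne
    rcases A l i j i' j' hij hij' hl hl' with h | h
    · subst h
      exact hr1 (F1 {i, j} i j' l hij' (by simp) (by simp [hij'.symm, hne]) hl')
    · exact hne h.symm
  have Crow : ∀ i j, i ≠ j → ∃ l, 0 < μ i j l ∧ ∀ i' j', i' ≠ j' → 0 < μ i' j' l → i' = i := by
    intro i j hij
    obtain ⟨l, hl, hr1⟩ := half {i, j}ᶜ i j hij (by simp)
    refine ⟨l, hl, ?_⟩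
    intro i' j' hij' hl'
    by_contra hne
    rcases A l i j i' j' hij hij' hl hl' with h | h
    · exact hne h.symm
    · subst h
      exact hr1 (F1 {i, j}ᶜ i' j l hij' (by simp [hij', hne]) (by simp) hl')
  -- predicates
  let R : Fin n → Fin k → Prop := fun i l =>
    (∃ j, i ≠ j ∧ 0 < μ i j l) ∧ ∀ i' j', i' ≠ j' → 0 < μ i' j' l → i' = i
  let C : Fin n → Fin k → Prop := fun j l =>
    (∃ i, i ≠ j ∧ 0 < μ i j l) ∧ ∀ i' j', i' ≠ j' → 0 < μ i' j' l → j' = j
  let W : Fin k → ℕ := fun l => if (∃ i, R i l) ∧ (∃ j, C j l) then 1 else 2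
  have Runiq : ∀ i i' l, R i l → R i' l → i = i' := by
    rintro i i' l ⟨⟨j, hj, hjl⟩, _⟩ ⟨_, h'⟩
    exact h' i j hj hjl
  have Cuniq : ∀ j j' l, C j l → C j' l → j = j' := by
    rintro j j' l ⟨⟨i, hi, hil⟩, _⟩ ⟨_, h'⟩
    exact h' i j hi hil
  -- a row has total weight at least two
  have rowW : ∀ i, 2 ≤ ∑ l, (if R i l then W l else 0) := by
    intro i
    by_cases hex : ∃ l, R i l ∧ W l = 2
    · obtain ⟨l, hl, hW⟩ := hex
      calc 2 = (if R i l then W l else 0) := by rw [if_pos hl, hW]
        _ ≤ _ := Finset.single_le_sum (f := fun l => if R i l then W l else 0)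
            (fun _ _ => Nat.zero_le _) (Finset.mem_univ l)
    · push Not at hex
      obtain ⟨j₁, hj₁⟩ : ∃ j : Fin n, j ≠ i := by
        have : Nontrivial (Fin n) := Fin.nontrivial_iff_two_le.mpr (by omega)
        exact exists_ne i
      obtain ⟨j₂, hj₂, hj₂'⟩ : ∃ j : Fin n, j ≠ i ∧ j ≠ j₁ := by
        have : ({i, j₁} : Finset (Fin n)).card < (Finset.univ : Finset (Fin n)).card := by
          refine lt_of_le_of_lt Finset.card_le_two ?_
          simp; omega
        obtain ⟨j, _, hj⟩ := Finset.exists_mem_notMem_of_card_lt_card this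
        simp only [Finset.mem_insert, Finset.mem_singleton, not_or] at hj
        exact ⟨j, hj.1, hj.2⟩
      obtain ⟨l₁, hl₁, hr₁⟩ := Crow i j₁ hj₁.symm
      obtain ⟨l₂, hl₂, hr₂⟩ := Crow i j₂ hj₂.symm
      have R1 : R i l₁ := ⟨⟨j₁, hj₁.symm, hl₁⟩, hr₁⟩
      have R2 : R i l₂ := ⟨⟨j₂, hj₂.symm, hl₂⟩, hr₂⟩
      have W1 : W l₁ = 1 := by
        have := hex l₁ R1
        by_contra h
        apply this
        simp only [W] at h ⊢
        split_ifs at h ⊢
        · exact absurd rfl h
        · rfl
      have hne : l₁ ≠ l₂ := by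
        intro he
        subst he
        have hs : (∃ i, R i l₁) ∧ (∃ j, C j l₁) := by
          by_contra h
          simp only [W, if_neg h] at W1
          norm_num at W1
        obtain ⟨_, j, _, hj⟩ := hs
        have e1 := hj i j₁ hj₁.symm hl₁
        have e2 := hj i j₂ hj₂.symm hl₂
        exact hj₂' (e2.trans e1.symm)
      have Wpos : ∀ l, 1 ≤ W l := by
        intro l; simp only [W]; split_ifs <;> norm_num
      calc 2 ≤ W l₁ + W l₂ := by have := Wpos l₁; have := Wpos l₂; omega
        _ = ∑ l ∈ ({l₁, l₂} : Finset (Fin k)), (if R i l then W l else 0) := by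
            rw [Finset.sum_pair hne, if_pos R1, if_pos R2]
        _ ≤ _ := Finset.sum_le_sum_of_subset (Finset.subset_univ _)
  have colW : ∀ j, 2 ≤ ∑ l, (if C j l then W l else 0) := by
    intro j
    by_cases hex : ∃ l, C j l ∧ W l = 2
    · obtain ⟨l, hl, hW⟩ := hex
      calc 2 = (if C j l then W l else 0) := by rw [if_pos hl, hW]
        _ ≤ _ := Finset.single_le_sum (f := fun l => if C j l then W l else 0)
            (fun _ _ => Nat.zero_le _) (Finset.mem_univ l)
    · push Not at hex
      obtain ⟨i₁, hi₁⟩ : ∃ i : Fin n, i ≠ j := by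
        have : Nontrivial (Fin n) := Fin.nontrivial_iff_two_le.mpr (by omega)
        exact exists_ne j
      obtain ⟨i₂, hi₂, hi₂'⟩ : ∃ i : Fin n, i ≠ j ∧ i ≠ i₁ := by
        have : ({j, i₁} : Finset (Fin n)).card < (Finset.univ : Finset (Fin n)).card := by
          refine lt_of_le_of_lt Finset.card_le_two ?_
          simp; omega
        obtain ⟨i, _, hi⟩ := Finset.exists_mem_notMem_of_card_lt_card this
        simp only [Finset.mem_insert, Finset.mem_singleton, not_or] at hi
        exact ⟨i, hi.1, hi.2⟩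
      obtain ⟨l₁, hl₁, hr₁⟩ := Ccol i₁ j hi₁
      obtain ⟨l₂, hl₂, hr₂⟩ := Ccol i₂ j hi₂
      have C1 : C j l₁ := ⟨⟨i₁, hi₁, hl₁⟩, hr₁⟩
      have C2 : C j l₂ := ⟨⟨i₂, hi₂, hl₂⟩, hr₂⟩
      have W1 : W l₁ = 1 := by
        have := hex l₁ C1
        by_contra h
        apply this
        simp only [W] at h ⊢
        split_ifs at h ⊢
        · exact absurd rfl h
        · rfl
      have hne : l₁ ≠ l₂ := by
        intro he
        subst he
        have hs : (∃ i, R i l₁) ∧ (∃ j, C j l₁) := by
          by_contra h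
          simp only [W, if_neg h] at W1
          norm_num at W1
        obtain ⟨⟨i, _, hi⟩, _⟩ := hs
        have e1 := hi i₁ j hi₁ hl₁
        have e2 := hi i₂ j hi₂ hl₂
        exact hi₂' (e2.trans e1.symm)
      have Wpos : ∀ l, 1 ≤ W l := by
        intro l; simp only [W]; split_ifs <;> norm_num
      calc 2 ≤ W l₁ + W l₂ := by have := Wpos l₁; have := Wpos l₂; omega
        _ = ∑ l ∈ ({l₁, l₂} : Finset (Fin k)), (if C j l then W l else 0) := by
            rw [Finset.sum_pair hne, if_pos C1, if_pos C2]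
        _ ≤ _ := Finset.sum_le_sum_of_subset (Finset.subset_univ _)
  -- each state has total weight at most two
  have stW : ∀ l, (∑ i, (if R i l then W l else 0)) + (∑ j, (if C j l then W l else 0)) ≤ 2 := by
    intro l
    have hsumR : (∑ i, (if R i l then W l else 0)) ≤ if ∃ i, R i l then W l else 0 := by
      by_cases h : ∃ i, R i l
      · obtain ⟨i, hi⟩ := h
        rw [if_pos ⟨i, hi⟩]
        rw [Finset.sum_eq_single i]
        · rw [if_pos hi]
        · intro i' _ hne
          rw [if_neg]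
          intro hi'
          exact hne (Runiq i' i l hi' hi)
        · intro h; exact absurd (Finset.mem_univ _) h
      · rw [if_neg h]
        push Not at h
        simp [h]
    have hsumC : (∑ j, (if C j l then W l else 0)) ≤ if ∃ j, C j l then W l else 0 := by
      by_cases h : ∃ j, C j l
      · obtain ⟨j, hj⟩ := h
        rw [if_pos ⟨j, hj⟩]
        rw [Finset.sum_eq_single j]
        · rw [if_pos hj]
        · intro j' _ hne
          rw [if_neg]
          intro hj'
          exact hne (Cuniq j' j l hj' hj)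
        · intro h; exact absurd (Finset.mem_univ _) h
      · rw [if_neg h]
        push Not at h
        simp [h]
    have hW2 : W l ≤ 2 := by simp only [W]; split_ifs <;> norm_num
    by_cases h1 : ∃ i, R i l
    · by_cases h2 : ∃ j, C j l
      · have : W l = 1 := by simp only [W]; rw [if_pos ⟨h1, h2⟩]
        rw [if_pos h1] at hsumR
        rw [if_pos h2] at hsumC
        omega
      · rw [if_pos h1] at hsumR
        rw [if_neg h2] at hsumC
        omega
    · rw [if_neg h1] at hsumR
      by_cases h2 : ∃ j, C j l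
      · rw [if_pos h2] at hsumC
        omega
      · rw [if_neg h2] at hsumC
        omega
  have total : 2 * n + 2 * n ≤ 2 * k := by
    calc 2 * n + 2 * n = (∑ _i : Fin n, 2) + ∑ _j : Fin n, 2 := by
          simp [mul_comm]
      _ ≤ (∑ i, ∑ l, (if R i l then W l else 0)) + ∑ j, ∑ l, (if C j l then W l else 0) :=
          add_le_add (Finset.sum_le_sum fun i _ => rowW i) (Finset.sum_le_sum fun j _ => colW j)
      _ = ∑ l, ((∑ i, (if R i l then W l else 0)) + ∑ j, (if C j l then W l else 0)) := by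
          rw [Finset.sum_comm, Finset.sum_comm (s := (Finset.univ : Finset (Fin n)))
            (f := fun j l => if C j l then W l else 0), ← Finset.sum_add_distrib]
      _ ≤ ∑ _l : Fin k, 2 := Finset.sum_le_sum fun l _ => stW l
      _ = 2 * k := by simp [mul_comm]
  omega

end Count

lemma lower (hn : 3 ≤ n) {d : ℕ} (h : HasRefinementOfDim (rootPolytope n) d) :
    2 * n - 1 ≤ d := by
  obtain ⟨μ, r, h0, h1, h2, h3⟩ := h.extract
  have := count (k := d + 1) (fun i j l => μ (vtx i j) l) (fun J l => r (form J) l) hn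
    (fun i j l hij => h0 _ (vtx_mem hij) l) (fun i j hij => h1 _ (vtx_mem hij))
    (fun J l => h2 _ (form_mem J) l)
    (fun J i j hij => by rw [h3 _ (vtx_mem hij) _ (form_mem J), form_vtx J hij])
  omega

/-! ### Upper bound -/

/-- the simplex with `2n` vertices, realised as the standard simplex -/
lemma isSimplex_std {m d : ℕ} (hm : m = d + 1) :
    IsSimplexOfDim (stdSimplex ℝ (Fin m)) d := by
  subst hm
  refine ⟨fun i => Pi.single i 1, ?_, ?_⟩
  · have h2 := (Pi.basisFun ℝ (Fin (d + 1))).linearIndependent.affineIndependent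
    have e : (fun i => Pi.single i 1 : Fin (d + 1) → Fin (d + 1) → ℝ) =
        ⇑(Pi.basisFun ℝ (Fin (d + 1))) := by
      funext i; simp
    rw [e]; exact h2
  · rw [← convexHull_basis_eq_stdSimplex]
    congr 2
    funext i j
    simp [Pi.single_apply, eq_comm]

/-- the domain of `f` -/
def dom (n : ℕ) : Set (Fin (n + n) → ℝ) :=
  {x | x ∈ stdSimplex ℝ (Fin (n + n)) ∧
    ∑ i : Fin n, x (Fin.castAdd n i) = ∑ i : Fin n, x (Fin.natAdd n i)}

/-- the map `f` -/
def fmap (n : ℕ) : (Fin (n + n) → ℝ) → (Fin n → ℝ) :=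
  fun x i => 2 * (x (Fin.castAdd n i) - x (Fin.natAdd n i))

lemma dom_sum {x : Fin (n + n) → ℝ} (hx : x ∈ dom n) :
    ∑ i : Fin n, 2 * x (Fin.castAdd n i) = 1 ∧ ∑ i : Fin n, 2 * x (Fin.natAdd n i) = 1 := by
  obtain ⟨⟨_, h1⟩, h2⟩ := hx
  rw [Fin.sum_univ_add] at h1
  rw [← Finset.mul_sum, ← Finset.mul_sum]
  constructor <;> linarith

/-- `f x` as a convex combination -/
lemma fmap_eq {x : Fin (n + n) → ℝ} (hx : x ∈ dom n) :
    fmap n x = ∑ q : Fin n × Fin n,
      ((2 * x (Fin.castAdd n q.1)) * (2 * x (Fin.natAdd n q.2))) • vtx q.1 q.2 := by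
  obtain ⟨h1, h2⟩ := dom_sum hx
  funext l
  rw [Finset.sum_apply, Fintype.sum_prod_type]
  simp only [vtx, Pi.smul_apply, Pi.sub_apply, Pi.single_apply, smul_eq_mul, mul_sub,
    Finset.sum_sub_distrib, mul_ite, mul_one, mul_zero]
  have e1 : ∑ x_1 : Fin n, ∑ x_2 : Fin n,
      (if l = x_1 then 2 * x (Fin.castAdd n x_1) * (2 * x (Fin.natAdd n x_2)) else 0) =
      2 * x (Fin.castAdd n l) := by
    rw [Finset.sum_eq_single l]
    · simp only [if_true]
      rw [← Finset.mul_sum, h2, mul_one]
    · intro b _ hb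
      simp [hb.symm]
    · intro h; exact absurd (Finset.mem_univ _) h
  have e2 : ∑ x_1 : Fin n, ∑ x_2 : Fin n,
      (if l = x_2 then 2 * x (Fin.castAdd n x_1) * (2 * x (Fin.natAdd n x_2)) else 0) =
      2 * x (Fin.natAdd n l) := by
    simp only [Finset.sum_ite_eq, Finset.mem_univ, if_true]
    rw [← Finset.sum_mul, h1, one_mul]
  rw [e1, e2]
  simp only [fmap]
  ring

lemma weights_sum {x : Fin (n + n) → ℝ} (hx : x ∈ dom n) :
    ∑ q : Fin n × Fin n, ((2 * x (Fin.castAdd n q.1)) * (2 * x (Fin.natAdd n q.2))) = 1 := by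
  obtain ⟨h1, h2⟩ := dom_sum hx
  rw [Fintype.sum_prod_type]
  have : ∀ i : Fin n, ∑ j : Fin n, (2 * x (Fin.castAdd n i)) * (2 * x (Fin.natAdd n j)) =
      2 * x (Fin.castAdd n i) := by
    intro i
    rw [← Finset.mul_sum, h2, mul_one]
  simp only [this]
  exact h1

lemma weights_nonneg {x : Fin (n + n) → ℝ} (hx : x ∈ dom n) (q : Fin n × Fin n) :
    0 ≤ (2 * x (Fin.castAdd n q.1)) * (2 * x (Fin.natAdd n q.2)) := by
  have := hx.1.1 (Fin.castAdd n q.1)
  have := hx.1.1 (Fin.natAdd n q.2)
  positivity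

lemma fmap_partial (hn : 2 ≤ n) :
    IsPartialOntoAffine (stdSimplex ℝ (Fin (n + n))) (rootPolytope n) (dom n) (fmap n) := by
  have hlin : ∀ (a b : Fin (n + n) → ℝ) (s t : ℝ),
      fmap n (s • a + t • b) = s • fmap n a + t • fmap n b := by
    intro a b s t
    funext l
    simp only [fmap, Pi.add_apply, Pi.smul_apply, smul_eq_mul]
    ring
  have hconv : Convex ℝ (dom n) := by
    intro a ha b hb s t hs ht hst
    refine ⟨convex_stdSimplex ℝ _ ha.1 hb.1 hs ht hst, ?_⟩
    simp only [Pi.add_apply, Pi.smul_apply, smul_eq_mul, Finset.sum_add_distrib,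
      ← Finset.mul_sum, ha.2, hb.2]
  refine ⟨fun x hx => hx.1, ?_, fun a _ b _ t _ => hlin a b t (1 - t), ?_⟩
  · intro a ha b hb t ht
    exact hconv ha hb ht.1 (by linarith [ht.2]) (by ring)
  · apply Set.Subset.antisymm
    · rintro _ ⟨x, hx, rfl⟩
      rw [fmap_eq hx]
      exact convex_root.sum_mem (fun q _ => weights_nonneg hx q) (weights_sum hx)
        (fun q _ => vtx_mem' hn q.1 q.2)
    · apply convexHull_min
      · rintro _ ⟨i, j, hij, rfl⟩
        refine ⟨(1 / 2 : ℝ) • Pi.single (Fin.castAdd n i) 1 +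
          (1 / 2 : ℝ) • Pi.single (Fin.natAdd n j) 1, ⟨?_, ?_⟩, ?_⟩
        · exact convex_stdSimplex ℝ _ (single_mem_stdSimplex ℝ _) (single_mem_stdSimplex ℝ _)
            (by norm_num) (by norm_num) (by norm_num)
        · have c1 : ∀ a : Fin n, (Pi.single (Fin.castAdd n i) 1 : Fin (n + n) → ℝ)
              (Fin.castAdd n a) = if a = i then 1 else 0 := by
            intro a; simp [Pi.single_apply]
          have c2 : ∀ a : Fin n, (Pi.single (Fin.natAdd n j) 1 : Fin (n + n) → ℝ)
              (Fin.natAdd n a) = if a = j then 1 else 0 := by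
            intro a; simp [Pi.single_apply, Fin.ext_iff]
          have c3 : ∀ a : Fin n, (Pi.single (Fin.castAdd n i) 1 : Fin (n + n) → ℝ)
              (Fin.natAdd n a) = 0 := by
            intro a
            rw [Pi.single_apply, if_neg]
            intro h
            have := congrArg Fin.val h
            simp at this; omega
          have c4 : ∀ a : Fin n, (Pi.single (Fin.natAdd n j) 1 : Fin (n + n) → ℝ)
              (Fin.castAdd n a) = 0 := by
            intro a
            rw [Pi.single_apply, if_neg]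
            intro h
            have := congrArg Fin.val h
            simp at this; omega
          simp only [Pi.add_apply, Pi.smul_apply, smul_eq_mul, c1, c2, c3, c4]
          simp
        · have c1 : ∀ a : Fin n, (Pi.single (Fin.castAdd n i) 1 : Fin (n + n) → ℝ)
              (Fin.castAdd n a) = if a = i then 1 else 0 := by
            intro a; simp [Pi.single_apply]
          have c2 : ∀ a : Fin n, (Pi.single (Fin.natAdd n j) 1 : Fin (n + n) → ℝ)
              (Fin.natAdd n a) = if a = j then 1 else 0 := by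
            intro a; simp [Pi.single_apply, Fin.ext_iff]
          have c3 : ∀ a : Fin n, (Pi.single (Fin.castAdd n i) 1 : Fin (n + n) → ℝ)
              (Fin.natAdd n a) = 0 := by
            intro a
            rw [Pi.single_apply, if_neg]
            intro h
            have := congrArg Fin.val h
            simp at this; omega
          have c4 : ∀ a : Fin n, (Pi.single (Fin.natAdd n j) 1 : Fin (n + n) → ℝ)
              (Fin.castAdd n a) = 0 := by
            intro a
            rw [Pi.single_apply, if_neg]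
            intro h
            have := congrArg Fin.val h
            simp at this; omega
          funext l
          simp only [fmap, Pi.add_apply, Pi.smul_apply, smul_eq_mul, c1, c2, c3, c4,
            Pi.sub_apply, Pi.single_apply]
          ring
      · have := hconv
        intro a ha b hb s t hs ht hst
        obtain ⟨x, hx, rfl⟩ := ha
        obtain ⟨y, hy, rfl⟩ := hb
        exact ⟨s • x + t • y, hconv hx hy hs ht hst, hlin x y s t⟩

lemma lift_form (hn : 2 ≤ n) (e : rootPolytope n → ℝ) (he : e ∈ FormSpace (rootPolytope n)) :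
    ∃ ω ∈ FormSpace (stdSimplex ℝ (Fin (n + n))),
      ∀ (a : Fin (n + n) → ℝ) (ha : a ∈ stdSimplex ℝ (Fin (n + n))) (c : rootPolytope n),
        a ∈ dom n → fmap n a = c → e c = ω ⟨a, ha⟩ := by
  have hne : (Finset.univ : Finset (Fin n)).Nonempty := ⟨⟨0, by omega⟩, Finset.mem_univ _⟩
  have hmem : ∀ i j : Fin n, vtx i j ∈ rootPolytope n := vtx_mem' hn
  let w : Fin n → Fin n → ℝ := fun i j => ext0 e (vtx i j)
  have hw : ∀ i j, 0 ≤ w i j ∧ w i j ≤ 1 := by
    intro i j
    simp only [w, ext0_of_mem e (hmem i j)]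
    exact he.1 _
  have hzero : ∀ i : Fin n, vtx i i = 0 := fun i => by simp [vtx]
  obtain ⟨o, -⟩ := hne
  let w0 : ℝ := w o o
  have hrel : ∀ i j, w i j = w0 + (w i o - w0) - (w j o - w0) := by
    intro i j
    -- midpoint of `vtx i j` and `vtx j o` is midpoint of `vtx i o` and `0`
    have hmid : ∀ x ∈ rootPolytope n, ∀ y ∈ rootPolytope n,
        ext0 e ((1 / 2 : ℝ) • x + (1 / 2 : ℝ) • y) = (1 / 2) * ext0 e x + (1 / 2) * ext0 e y := by
      intro x hx y hy
      have hm : (1 / 2 : ℝ) • x + (1 / 2 : ℝ) • y ∈ rootPolytope n :=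
        convex_root hx hy (by norm_num) (by norm_num) (by norm_num)
      rw [ext0_of_mem e hx, ext0_of_mem e hy, ext0_of_mem e hm]
      have := he.2 ⟨x, hx⟩ ⟨y, hy⟩ ⟨_, hm⟩ (1 / 2) (by norm_num) (by norm_num)
        (by norm_num)
      rw [this]; norm_num
    have h1 := hmid _ (hmem i j) _ (hmem j o)
    have h2 := hmid _ (hmem i o) _ (hmem o o)
    have h3 : (1 / 2 : ℝ) • vtx i j + (1 / 2 : ℝ) • vtx j o =
        (1 / 2 : ℝ) • vtx i o + (1 / 2 : ℝ) • vtx o o := by
      rw [hzero o]
      simp only [vtx]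
      rw [← smul_add, ← smul_add]
      congr 1
      abel
    rw [h3, h2] at h1
    simp only [w, w0] at *
    linarith
  obtain ⟨a, -, ha⟩ := Finset.exists_max_image Finset.univ (fun i => w i o) ⟨o, Finset.mem_univ o⟩
  obtain ⟨b, -, hb⟩ := Finset.exists_min_image Finset.univ (fun i => w i o) ⟨o, Finset.mem_univ o⟩
  have ha' : ∀ i, w i o ≤ w a o := fun i => ha i (Finset.mem_univ i)
  have hb' : ∀ i, w b o ≤ w i o := fun i => hb i (Finset.mem_univ i)
  let c : Fin n → ℝ := fun i => w i o - w0
  let α : Fin n → ℝ := fun i => w0 + 2 * c i - (c a + c b)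
  let β : Fin n → ℝ := fun j => w0 - 2 * c j + (c a + c b)
  have hab1 : c a - c b ≤ 1 - w0 := by
    have h1 := hrel a b
    have h2 := (hw a b).2
    simp only [c]; linarith
  have hab2 : c a - c b ≤ w0 := by
    have h1 := hrel b a
    have h2 := (hw b a).1
    simp only [c]; linarith
  have hα : ∀ i, 0 ≤ α i ∧ α i ≤ 1 := by
    intro i
    have h1 := ha' i
    have h2 := hb' i
    simp only [α, c] at *
    constructor <;> linarith
  have hβ : ∀ i, 0 ≤ β i ∧ β i ≤ 1 := by
    intro i
    have h1 := ha' i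
    have h2 := hb' i
    simp only [β, c] at *
    constructor <;> linarith
  have hαβ : ∀ i j, w i j = (α i + β j) / 2 := by
    intro i j
    rw [hrel i j]
    simp only [α, β, c]
    ring
  let φ : (Fin (n + n) → ℝ) →ₗ[ℝ] ℝ :=
    ∑ i : Fin n, (α i • (LinearMap.proj (Fin.castAdd n i) : (Fin (n + n) → ℝ) →ₗ[ℝ] ℝ) +
      β i • (LinearMap.proj (Fin.natAdd n i) : (Fin (n + n) → ℝ) →ₗ[ℝ] ℝ))
  have hφ : ∀ x, φ x = ∑ i : Fin n, (α i * x (Fin.castAdd n i) + β i * x (Fin.natAdd n i)) := by
    intro x; simp [φ]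
  refine ⟨fun x => φ x + 0, mem_formSpace_of_affine φ 0 ?_, ?_⟩
  · intro x hx
    have h1 := hx.2
    rw [Fin.sum_univ_add, ← Finset.sum_add_distrib] at h1
    rw [add_zero, hφ]
    constructor
    · apply Finset.sum_nonneg
      intro i _
      have h2 := hx.1 (Fin.castAdd n i)
      have h3 := hx.1 (Fin.natAdd n i)
      have h4 := (hα i).1
      have h5 := (hβ i).1
      positivity
    · rw [← h1]
      apply Finset.sum_le_sum
      intro i _
      have h2 := hx.1 (Fin.castAdd n i)
      have h3 := hx.1 (Fin.natAdd n i)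
      have h4 := (hα i).2
      have h5 := (hβ i).2
      nlinarith
  · rintro x hxT ⟨v, hv⟩ hxD hfx
    replace hfx : fmap n x = v := hfx
    show e ⟨v, hv⟩ = φ x + 0
    obtain ⟨s1, s2⟩ := dom_sum hxD
    have h1 := FormSpace.map_sum convex_root he Finset.univ
      (fun q : Fin n × Fin n => (2 * x (Fin.castAdd n q.1)) * (2 * x (Fin.natAdd n q.2)))
      (fun q => vtx q.1 q.2) (fun q _ => weights_nonneg hxD q) (weights_sum hxD)
      (fun q _ => hmem q.1 q.2)
    rw [← fmap_eq hxD, hfx, ext0_of_mem e hv] at h1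
    rw [h1, add_zero, hφ, Fintype.sum_prod_type]
    have h2 : ∀ i j : Fin n, 2 * x (Fin.castAdd n i) * (2 * x (Fin.natAdd n j)) *
        ext0 e (vtx i j) = (α i * x (Fin.castAdd n i)) * (2 * x (Fin.natAdd n j)) +
          (2 * x (Fin.castAdd n i)) * (β j * x (Fin.natAdd n j)) := by
      intro i j
      have := hαβ i j
      simp only [w] at this
      rw [this]; ring
    have h3 : ∀ i : Fin n, ∑ j : Fin n, 2 * x (Fin.castAdd n i) * (2 * x (Fin.natAdd n j)) *
        ext0 e (vtx i j) = α i * x (Fin.castAdd n i) +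
          (2 * x (Fin.castAdd n i)) * ∑ j : Fin n, (β j * x (Fin.natAdd n j)) := by
      intro i
      simp only [h2]
      rw [Finset.sum_add_distrib, ← Finset.mul_sum (Finset.univ)
        (fun j : Fin n => 2 * x (Fin.natAdd n j)), s2, mul_one, ← Finset.mul_sum]
    simp only [h3]
    rw [Finset.sum_add_distrib, ← Finset.sum_mul, s1, one_mul, Finset.sum_add_distrib]

lemma upper (hn : 2 ≤ n) : HasRefinementOfDim (rootPolytope n) (2 * n - 1) := by
  refine hasRefinementOfDim_of (isSimplex_std (m := n + n) (by omega)) (dom n) (fmap n)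
    (fmap_partial hn) ?_
  intro e he
  obtain ⟨ω, hω, h⟩ := lift_form hn e he
  exact ⟨ω, hω, fun a c ha hc => h a.1 a.2 c ha hc⟩

end Pool.Agent.Lib.MP_ff4a33_gt.Root
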